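import Pool.Agent.Helper18_PP.StmtsC
import Pool.Agent.Helper46_PP.BlkProd

/-!
# Squad PP, part CYD, module PBK: the block of a direct power
-/

open scoped BigOperators

noncomputable section

namespace Pool.Agent.PP.H9

open Pool.Agent.PP

variable {F H H' : Type} [Field F] [Group H] [Group H']

theorem mulF_tr (e : H ≃* H') (a a' : H' → F) :
    mulF (fun x => a (e x)) (fun x => a' (e x)) = fun x => mulF a a' (e x) := by
  funext x
  unfold mulF
  rw [← finsum_comp_equiv e.toEquiv]
  refine finsum_congr fun t => ?_
  show a (e t) * a' (e (t⁻¹ * x)) = a (e t) * a' ((e t)⁻¹ * e x)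
  rw [map_mul, map_inv]

theorem idem_tr (e : H ≃* H') {a : H' → F} (h : IsIdem a) : IsIdem (fun x => a (e x)) := by
  refine ⟨fun x y => ?_, by rw [mulF_tr, h.2]⟩
  show a (e (y * x * y⁻¹)) = a (e x)
  rw [map_mul, map_mul, map_inv]
  exact h.1 _ _

theorem blk_tr (e : H ≃* H') {a : H' → F} (h : IsBlk a) : IsBlk (fun x => a (e x)) := by
  refine ⟨idem_tr e h.1, fun h0 => h.2.1 ?_, fun g hg => ?_⟩
  · funext y
    have := congrFun h0 (e.symm y)
    simpa using this
  · have h1 : (fun x => (fun y => g (e.symm y)) (e x)) = g := by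
      funext x
      simp
    rcases h.2.2 _ (idem_tr e.symm hg) with h2 | h2
    · left
      have := mulF_tr e a (fun y => g (e.symm y))
      rw [h1, h2] at this
      exact this
    · right
      have := mulF_tr e a (fun y => g (e.symm y))
      rw [h1, h2] at this
      exact this

/-- the first coordinate -/
def pw1 (K : Type) [Group K] : (Fin 1 → K) ≃* K where
  toFun k := k 0
  invFun x := fun _ => x
  left_inv k := by
    funext j
    rw [Subsingleton.elim j 0]
  right_inv _ := rfl
  map_mul' _ _ := rfl

/-- the first coordinate and the others -/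
def pwS' (K : Type) [Group K] (p : ℕ) : (Fin (p + 1) → K) ≃* K × (Fin p → K) where
  toFun k := (k 0, fun j => k j.succ)
  invFun x := Fin.cons (α := fun _ => K) x.1 x.2
  left_inv k := by
    funext j
    refine Fin.cases ?_ (fun i => ?_) j
    · rfl
    · rfl
  right_inv _ := rfl
  map_mul' _ _ := rfl

/-- PBK: the block of a direct power. -/
theorem pbk : PbkStmt := by
  intro ℓ _ F _ hF K _ _ p f₀ hf
  induction p with
  | zero =>
    have h := blk_tr (pw1 K) hf
    have e1 : (fun k : Fin (0 + 1) → K => ∏ j, f₀ (k j)) = fun x => f₀ (pw1 K x) := by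
      funext k
      exact Fin.prod_univ_one _
    rw [e1]
    exact h
  | succ p ih =>
    have h := blk_tr (pwS' K (p + 1)) (H46.isBlk_box hF.closed hf ih)
    have e1 : (fun k : Fin (p + 1 + 1) → K => ∏ j, f₀ (k j)) =
        fun x => H46.box f₀ (fun k : Fin (p + 1) → K => ∏ j, f₀ (k j)) (pwS' K (p + 1) x) := by
      funext k
      exact Fin.prod_univ_succ _
    rw [e1]
    exact h

end Pool.Agent.PP.H9
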