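import Pool.Agent.Helper96_PP.Trn
import Pool.Agent.Helper65_PP.Sup
import Pool.Agent.Helper46_PP.Alg
import Pool.Agent.Helper94_PP.Nch
import Pool.Agent.Helper20_PP.Nls
import Pool.Agent.Helper20_PP.Ibr

/-!
# Squad PP, module ADD: additivity of the alternating sum, reduction to blocks
-/

open scoped BigOperators

noncomputable section

namespace Pool.Agent.PP.H9

open Pool.Agent.Helper51_AWC Pool.Agent.Helper79_WRA Pool.Agent.PP Pool.Agent.PP.H94

section lnum

variable {F X : Type} [Field F] [Group X] [Finite X]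

theorem actF_add (a b f : X → F) : actF (a + b) f = actF a f + actF b f := by
  funext x
  have := Fintype.ofFinite X
  simp only [actF, Pi.add_apply, finsum_eq_sum_of_fintype, add_mul, Finset.sum_add_distrib]

/-- additivity of the number of irreducible characters under orthogonal central idempotents -/
theorem ncard_add {ℓ : ℕ} (hF : GoodF ℓ F) (heig : EigStmt) (hibf : IbfStmt) {a b : X → F}
    (ha : IsIdem a) (hb : IsIdem b) (hab : mulF a b = 0) :
    {f : X → F | f ∈ IBr F X ∧ actF (a + b) f = f}.ncard =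
      {f : X → F | f ∈ IBr F X ∧ actF a f = f}.ncard +
        {f : X → F | f ∈ IBr F X ∧ actF b f = f}.ncard := by
  have hfin := (hibf ℓ F hF X).1
  have key : ∀ f ∈ IBr F X, ∃ w v : F, actF a f = w • f ∧ actF b f = v • f ∧ (w = 0 ∨ w = 1) ∧
      (v = 0 ∨ v = 1) ∧ w * v = 0 ∧ f ≠ 0 := by
    intro f hf
    have hne : f ≠ 0 := H65.ibr_ne_zero hF hf
    obtain ⟨n, ρ, hρ, rfl⟩ := hf
    obtain ⟨w, hw1, hw2, hw3⟩ := heig F X n ρ hρ a ha.1
    obtain ⟨v, hv1, hv2, hv3⟩ := heig F X n ρ hρ b hb.1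
    refine ⟨w, v, hw2, hv2, hw3 ha, hv3 hb, ?_, hne⟩
    have h1 : ev ρ (mulF a b) = ev ρ a * ev ρ b := ev_mulF ρ a b
    have h2 : ev ρ (0 : X → F) = 0 := by
      unfold ev
      simp
    rw [hab, h2, hw1, hv1] at h1
    have h3 := congrFun (congrFun h1 ⟨0, hρ.1⟩) ⟨0, hρ.1⟩
    rw [← map_mul] at h3
    simpa [Matrix.scalar_apply] using h3.symm
  have hun : {f : X → F | f ∈ IBr F X ∧ actF (a + b) f = f} =
      {f : X → F | f ∈ IBr F X ∧ actF a f = f} ∪ {f : X → F | f ∈ IBr F X ∧ actF b f = f} := by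
    ext f
    constructor
    · rintro ⟨hf, h⟩
      obtain ⟨w, v, hw, hv, hw01, hv01, hwv, hne⟩ := key f hf
      rw [actF_add, hw, hv] at h
      rcases hw01 with h0 | h0
      · rcases hv01 with h1 | h1
        · exfalso
          apply hne
          rw [← h, h0, h1, zero_smul, add_zero]
        · right
          exact ⟨hf, by rw [hv, h1, one_smul]⟩
      · left
        exact ⟨hf, by rw [hw, h0, one_smul]⟩
    · have hone : ∀ {w : F} {f : X → F}, f ≠ 0 → w • f = f → w = 1 := by
        intro w f hne h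
        by_contra hw
        apply hne
        have h1 : (w - 1) • f = 0 := by rw [sub_smul, h, one_smul, sub_self]
        exact (smul_eq_zero.1 h1).resolve_left (sub_ne_zero.2 hw)
      rintro (⟨hf, h⟩ | ⟨hf, h⟩)
      · obtain ⟨w, v, hw, hv, hw01, hv01, hwv, hne⟩ := key f hf
        refine ⟨hf, ?_⟩
        have hw1 : w = 1 := hone hne (by rw [← hw, h])
        rw [hw1, one_mul] at hwv
        rw [actF_add, hw, hv, hw1, hwv, one_smul, zero_smul, add_zero]
      · obtain ⟨w, v, hw, hv, hw01, hv01, hwv, hne⟩ := key f hf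
        refine ⟨hf, ?_⟩
        have hv1 : v = 1 := hone hne (by rw [← hv, h])
        rw [hv1, mul_one] at hwv
        rw [actF_add, hw, hv, hv1, hwv, one_smul, zero_smul, zero_add]
  rw [hun]
  apply Set.ncard_union_eq
  · rw [Set.disjoint_left]
    rintro f ⟨hf, h1⟩ ⟨-, h2⟩
    obtain ⟨w, v, hw, hv, hw01, hv01, hwv, hne⟩ := key f hf
    rcases mul_eq_zero.1 hwv with h0 | h0
    · apply hne
      rw [← h1, hw, h0, zero_smul]
    · apply hne
      rw [← h2, hv, h0, zero_smul]
  · exact hfin.subset fun f hf => hf.1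
  · exact hfin.subset fun f hf => hf.1

end lnum

section main

variable {ℓ : ℕ} {F G : Type} [Field F] [Group G] [Finite G]

theorem lnum_add (hF : GoodF ℓ F) (hnls : NlsStmt) (hbrm : BrmStmt) (heig : EigStmt)
    (hibf : IbfStmt) {R X : Subgroup G} (hR : IsPGroup ℓ R) (hRX : R ≤ X)
    (hCX : Subgroup.centralizer (R : Set G) ≤ X) (hXR : X ≤ Subgroup.normalizer (R : Set G))
    {e g : G → F} (he : IsIdem e) (hg : IsIdem g) (heg : mulF e g = 0) :
    lnum X (e + g) = lnum X e + lnum X g := by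
  obtain ⟨h1, h2, h3⟩ := hbrm ℓ F hF G R X hR hCX hXR
  have hcl : IsCl (e + g) := by
    intro x y
    rw [Pi.add_apply, Pi.add_apply, he.1, hg.1]
  rw [H96.lnum_br hF hnls hR hRX hXR hcl, H96.lnum_br hF hnls hR hRX hXR he.1,
    H96.lnum_br hF hnls hR hRX hXR hg.1]
  have hadd : (fun t : X => br R (e + g) t) = (fun t : X => br R e t) + fun t : X => br R g t := by
    funext t
    rw [Pi.add_apply]
    unfold br
    by_cases h : (t : G) ∈ Subgroup.centralizer (R : Set G)
    · rw [if_pos h, if_pos h, if_pos h]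
      rfl
    · rw [if_neg h, if_neg h, if_neg h, add_zero]
  have hmul : mulF (fun t : X => br R e t) (fun t : X => br R g t) = 0 := by
    rw [← h2, ← h1 e g he.1 hg.1, heg]
    funext t
    unfold br
    split_ifs <;> rfl
  unfold lnum
  rw [hadd]
  exact ncard_add hF heig hibf (h3 e he) (h3 g hg) hmul

theorem YY_add (hF : GoodF ℓ F) (hnch : NchStmt) (hnls : NlsStmt) (hbrm : BrmStmt)
    (heig : EigStmt) (hibf : IbfStmt) (Q : Subgroup G) {e g : G → F} (he : IsIdem e)
    (hg : IsIdem g) (heg : mulF e g = 0) : YY ℓ Q (e + g) = YY ℓ Q e + YY ℓ Q g := by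
  classical
  have : Fact ℓ.Prime := ⟨hF.prime⟩
  unfold YY
  have k : ∀ a : G → F, ∑ d ∈ chainsOn (psubIn ℓ Q) ⊥, (-1) ^ (d.card + 1) *
      ((Nat.card (stab d) : ℤ) * (lnum (stab d) a : ℤ)) =
      ∑ d ∈ (chainsOn (psubIn ℓ Q) ⊥).filter NormalChain, (-1) ^ (d.card + 1) *
      ((Nat.card (stab d) : ℤ) * (lnum (stab d) a : ℤ)) := fun a =>
    hnch ℓ G Q (fun X _ => (Nat.card X : ℤ) * (lnum X a : ℤ))
  rw [k, k, k, ← Finset.sum_add_distrib]
  apply Finset.sum_congr rfl
  intro d hd
  rw [Finset.mem_filter] at hd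
  obtain ⟨hd, hn⟩ := hd
  obtain ⟨c1, c2, c3⟩ := mem_chainsOn.1 hd
  obtain ⟨t1, t2⟩ := top_mem c3 ⟨_, c2⟩
  have htp : IsPGroup ℓ (top d) := (mem_psubIn.1 (c1 t1)).2
  have hRX : top d ≤ stab d := by
    intro x hx
    rw [mem_stab']
    intro D hD
    exact hn D hD hx
  have hXR : stab d ≤ Subgroup.normalizer (top d : Set G) := by
    intro x hx
    exact (mem_stab'.1 hx) _ t1
  have hCX : Subgroup.centralizer (top d : Set G) ≤ stab d := by
    intro x hx
    rw [Subgroup.mem_centralizer_iff] at hx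
    rw [mem_stab']
    intro D hD
    rw [Subgroup.mem_normalizer_iff]
    intro y
    constructor
    · intro hy
      rw [← hx y (t2 D hD hy), mul_inv_cancel_right]
      exact hy
    · intro hy
      have h1 := hx _ (t2 D hD hy)
      have h2 : x * y * x⁻¹ * x = x * y := by group
      rw [h2] at h1
      have h3 : x * y * x⁻¹ = y := by
        calc x * y * x⁻¹ = x⁻¹ * (x * (x * y * x⁻¹)) := by group
          _ = x⁻¹ * (x * y) := by rw [← h1]
          _ = y := by group
      rwa [h3] at hy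
  rw [lnum_add hF hnls hbrm heig hibf htp hRX hCX hXR he hg heg]
  push_cast
  ring

end main

/-- ADD -/
theorem add (hnch : NchStmt) (hnls : NlsStmt) (hbrm : BrmStmt) (heig : EigStmt) (hibf : IbfStmt) :
    AddStmt := by
  intro ℓ F _ hF G _ _ Q hQ e he
  refine H46.idem_induction (fun e => (∀ f : G → F, IsBlk f → mulF e f = f → YY ℓ Q f = 0) →
    YY ℓ Q e = 0) ?_ ?_ ?_ e he
  · intro _
    have h := YY_add hF hnch hnls hbrm heig hibf Q (H46.isIdem_zero (F := F) (H := G))
      H46.isIdem_zero (H46.mulF_zero 0)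
    rw [add_zero] at h
    linarith
  · intro b hb h
    exact h b hb hb.1.2
  · intro e₁ e₂ h1 h2 h12 p1 p2 h
    have h21 : mulF e₂ e₁ = 0 := by rw [← H46.mulF_comm h1.1, h12]
    have hd : ∀ f : G → F, mulF (e₁ + e₂) f = mulF e₁ f + mulF e₂ f := by
      intro f
      apply ma_injective
      rw [ma_mul, ma_add, ma_add, ma_mul, ma_mul, add_mul]
    have hz : ∀ f : G → F, mulF (0 : G → F) f = 0 := by
      intro f
      apply ma_injective
      rw [ma_mul, ma_zero, zero_mul]
    rw [YY_add hF hnch hnls hbrm heig hibf Q h1 h2 h12, p1, p2, add_zero]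
    · intro f hf hfe
      apply h f hf
      rw [hd, hfe]
      have : mulF e₁ f = 0 := by rw [← hfe, ← mulF_assoc, h12, hz]
      rw [this, zero_add]
    · intro f hf hfe
      apply h f hf
      rw [hd, hfe]
      have : mulF e₂ f = 0 := by rw [← hfe, ← mulF_assoc, h21, hz]
      rw [this, add_zero]

/-- ADD without hypotheses -/
theorem addStmt : AddStmt := add nch H20.nls H20.brm H20.eig H20.ibf

end Pool.Agent.PP.H9
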