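import Pool.Agent.Helper67_PP.Rkr
import Pool.Agent.Helper66_PP.Pos1
import Pool.Agent.Helper26_PP.Cux

/-!
# Squad PP, module LQ: normal subgroups of index `ℓ`

Text: `AWC_LQ.md`, theorem LQ, part (3).
-/

open scoped BigOperators

noncomputable section

namespace Pool.Agent.PP.H9

open Pool.Agent.Helper51_AWC Pool.Agent.Helper79_WRA Pool.Agent.PP

section supp

variable {ℓ : ℕ} {F : Type} [Field F] {X : Type} [Group X] [Finite X]

omit [Finite X] in
/-- an `ℓ`-regular element lies in every normal subgroup of index `ℓ` -/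
theorem reg_mem {X₀ : Subgroup X} (hn : X₀.Normal) (hi : X₀.index = ℓ) {x : X} (hx : Reg ℓ x) :
    x ∈ X₀ := by
  have h1 : x ^ ℓ ∈ X₀ := by
    rw [← hi]
    exact Subgroup.pow_index_mem X₀ x
  have h2 : x ^ orderOf x ∈ X₀ := by
    rw [pow_orderOf_eq_one]
    exact X₀.one_mem
  have h3 : (QuotientGroup.mk x : X ⧸ X₀) = 1 := by
    rw [← orderOf_eq_one_iff]
    have h4 : orderOf (QuotientGroup.mk x : X ⧸ X₀) ∣ ℓ := by
      rw [orderOf_dvd_iff_pow_eq_one, ← QuotientGroup.mk_pow, QuotientGroup.eq_one_iff]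
      exact h1
    have h5 : orderOf (QuotientGroup.mk x : X ⧸ X₀) ∣ orderOf x := by
      rw [orderOf_dvd_iff_pow_eq_one, ← QuotientGroup.mk_pow, QuotientGroup.eq_one_iff]
      exact h2
    exact Nat.dvd_one.1 (hx ▸ Nat.dvd_gcd h5 h4)
  exact (QuotientGroup.eq_one_iff x).1 h3

/-- a central idempotent is supported on a normal subgroup of index `ℓ` -/
theorem supp_idem (hosi : OsiStmt) (hF : GoodF ℓ F) {X₀ : Subgroup X} (hn : X₀.Normal)
    (hi : X₀.index = ℓ) {e : X → F} (he : IsIdem e) {x : X} (hx : x ∉ X₀) : e x = 0 :=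
  hosi ℓ F hF X e he x fun h => hx (reg_mem hn hi h)

/-- a central idempotent supported on a subgroup is a central idempotent of the subgroup -/
theorem idem_res {X₀ : Subgroup X} {e : X → F} (he : IsIdem e) (hs : ∀ x, x ∉ X₀ → e x = 0) :
    IsIdem (fun t : X₀ => e t) := by
  refine ⟨fun x y => he.1 _ _, ?_⟩
  rw [← H66.mulF_sub hs]
  funext t
  exact congrFun he.2 (t : X)

/-- positivity of the restriction to a subgroup containing `Y` -/
theorem pos_res {X₀ Y : Subgroup X} (hY : Y ≤ X₀) {e : X → F} (he : Pos ℓ e Y) :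
    Pos ℓ (fun t : X₀ => e t) (Y.subgroupOf X₀) := by
  classical
  intro x hx hd
  have hx' : (x : X) ∈ Y := hx
  have hcard : Nat.card (Subgroup.centralizer ({x} : Set X₀) ⊓ Y.subgroupOf X₀ : Subgroup X₀) =
      Nat.card (Subgroup.centralizer ({(x : X)} : Set X) ⊓ Y : Subgroup X) := by
    refine Nat.card_congr
      { toFun := fun y => ⟨y.1.1, ?_⟩
        invFun := fun y => ⟨⟨y.1, hY y.2.2⟩, ?_⟩
        left_inv := fun y => rfl
        right_inv := fun y => rfl }
    · have h := Subgroup.mem_inf.1 y.2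
      rw [Subgroup.mem_centralizer_singleton_iff] at h
      rw [Subgroup.mem_inf, Subgroup.mem_centralizer_singleton_iff]
      exact ⟨congrArg Subtype.val h.1, h.2⟩
    · have h := Subgroup.mem_inf.1 y.2
      rw [Subgroup.mem_centralizer_singleton_iff] at h
      rw [Subgroup.mem_inf, Subgroup.mem_centralizer_singleton_iff]
      exact ⟨Subtype.ext h.1, h.2⟩
  rw [hcard] at hd
  obtain ⟨n, hn⟩ := he (x : X) hx' hd
  refine ⟨n, ?_⟩
  have hcl : clsum F (Y.subgroupOf X₀) x = fun t : X₀ => clsum F Y (x : X) t := by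
    funext t
    unfold clsum
    have hiff : (∃ q ∈ Y.subgroupOf X₀, t = q * x * q⁻¹) ↔
        ∃ q ∈ Y, (t : X) = q * x * q⁻¹ := by
      constructor
      · rintro ⟨q, hq, rfl⟩
        exact ⟨q, hq, rfl⟩
      · rintro ⟨q, hq, h⟩
        exact ⟨⟨q, hY hq⟩, hq, Subtype.ext h⟩
    by_cases h : ∃ q ∈ Y, (t : X) = q * x * q⁻¹
    · rw [if_pos h, if_pos (hiff.2 h)]
    · rw [if_neg h, if_neg (fun h' => h (hiff.1 h'))]
  have hsupp : ∀ t, t ∉ X₀ → clsum F Y (x : X) t = 0 := by
    intro t ht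
    unfold clsum
    rw [if_neg]
    rintro ⟨q, hq, rfl⟩
    exact ht (mul_mem (mul_mem (hY hq) x.2) (inv_mem (hY hq)))
  rw [hcl, ← H66.iter_sub hsupp]
  funext t
  exact congrFun hn (t : X)

end supp

section cent

variable {ℓ : ℕ} {F : Type} [Field F] {X : Type} [Group X] [Finite X]

omit [Finite X] in
theorem cent_zp (u : X) : Subgroup.centralizer ((Subgroup.zpowers u : Subgroup X) : Set X) =
    Subgroup.centralizer ({u} : Set X) := by
  ext t
  rw [H97.mem_cent_iff, Subgroup.zpowers_le, Subgroup.mem_centralizer_singleton_iff,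
    Subgroup.mem_centralizer_singleton_iff]
  exact eq_comm

/-- the measure of the centraliser of an `ℓ`-element in `Y` -/
theorem mu_lt (Y : Subgroup X) {C : Type} [Group C] [Finite C] (i : C →* X)
    (hi : Function.Injective i) (u : X) (hu : ¬ Y ≤ Subgroup.centralizer ({u} : Set X))
    (Y' : Subgroup C)
    (hY' : Y'.map i = Subgroup.centralizer ({u} : Set X) ⊓ Y) : mu Y' < mu Y := by
  classical
  have hz : ∀ t : C, i t ∈ Subgroup.center X → t ∈ Subgroup.center C := by
    intro t ht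
    rw [Subgroup.mem_center_iff] at ht ⊢
    intro g
    apply hi
    rw [map_mul, map_mul]
    exact ht _
  have hle : (Subgroup.center X).comap i ≤ Subgroup.center C := fun t ht => hz t ht
  have h1 : mu Y' ≤ ((Subgroup.center X).comap i).relIndex Y' := by
    apply Nat.le_of_dvd
    · exact Nat.pos_of_ne_zero Subgroup.index_ne_zero_of_finite
    · exact Subgroup.relIndex_dvd_of_le_left Y' hle
  have h2 : ((Subgroup.center X).comap i).relIndex Y' = (Subgroup.center X).relIndex (Y'.map i) :=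
    Subgroup.relIndex_comap (Subgroup.center X) i Y'
  rw [h2, hY'] at h1
  refine lt_of_le_of_lt h1 ?_
  have h3 : (Subgroup.center X).relIndex (Subgroup.centralizer ({u} : Set X) ⊓ Y) *
      (Subgroup.centralizer ({u} : Set X) ⊓ Y).relIndex Y = mu Y := by
    have h4 : (Subgroup.center X ⊓ Y) ≤ Subgroup.centralizer ({u} : Set X) ⊓ Y := by
      intro t ht
      have ht' : t ∈ Subgroup.centralizer ({u} : Set X) := by
        rw [Subgroup.mem_centralizer_singleton_iff]
        exact ((Subgroup.mem_center_iff.1 ht.1) u).symm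
      exact ⟨ht', ht.2⟩
    have h5 := Subgroup.relIndex_mul_relIndex (Subgroup.center X ⊓ Y)
      (Subgroup.centralizer ({u} : Set X) ⊓ Y) Y h4 inf_le_right
    rw [Subgroup.inf_relIndex_right (Subgroup.center X)] at h5
    have h6 : (Subgroup.center X ⊓ Y).relIndex (Subgroup.centralizer ({u} : Set X) ⊓ Y) =
        (Subgroup.center X).relIndex (Subgroup.centralizer ({u} : Set X) ⊓ Y) := by
      rw [← Subgroup.inf_relIndex_right (Subgroup.center X ⊓ Y),
        ← Subgroup.inf_relIndex_right (Subgroup.center X)]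
      congr 1
      rw [inf_assoc]
      congr 1
      rw [inf_eq_right]
      exact inf_le_right
    rw [h6] at h5
    exact h5
  have h7 : 1 < (Subgroup.centralizer ({u} : Set X) ⊓ Y).relIndex Y := by
    have h8 : (Subgroup.centralizer ({u} : Set X) ⊓ Y).relIndex Y ≠ 0 :=
      Subgroup.index_ne_zero_of_finite
    have h9 : (Subgroup.centralizer ({u} : Set X) ⊓ Y).relIndex Y ≠ 1 := by
      intro h
      rw [Subgroup.relIndex_eq_one] at h
      exact hu (h.trans inf_le_left)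
    omega
  have h10 : (Subgroup.center X).relIndex (Subgroup.centralizer ({u} : Set X) ⊓ Y) ≠ 0 :=
    Subgroup.index_ne_zero_of_finite
  rw [← h3]
  exact lt_mul_of_one_lt_right (Nat.pos_of_ne_zero h10) h7

omit [Finite X] in
/-- an `ℓ`-element `u ≠ 1` does not centralise `Y` -/
theorem not_cent (hp : ℓ.Prime) {Y : Subgroup X}
    (hC : ¬ ℓ ∣ Nat.card (Subgroup.centralizer (Y : Set X))) {u : X} (hu1 : u ≠ 1)
    (hu : ∃ n : ℕ, u ^ ℓ ^ n = 1) : ¬ Y ≤ Subgroup.centralizer ({u} : Set X) := by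
  intro h
  apply hC
  have h1 : u ∈ Subgroup.centralizer (Y : Set X) := H97.mem_cent_iff.2 h
  obtain ⟨n, hn⟩ := hu
  obtain ⟨k, -, hk⟩ := (Nat.dvd_prime_pow hp).1 (orderOf_dvd_of_pow_eq_one hn)
  have h2 : orderOf u ∣ Nat.card (Subgroup.centralizer (Y : Set X)) := by
    have h3 := orderOf_dvd_natCard (⟨u, h1⟩ : Subgroup.centralizer (Y : Set X))
    rwa [Subgroup.orderOf_mk] at h3
  refine dvd_trans ?_ h2
  rw [hk]
  apply dvd_pow_self
  rintro rfl
  rw [pow_zero, orderOf_eq_one_iff] at hk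
  exact hu1 hk

/-- the hypothesis of the relative theorem of Knörr and Robinson, from the induction -/
theorem hyp_rkr (hps : Ps1Stmt) (hB : BrmStmt) (hF : GoodF ℓ F) (Y : Subgroup X)
    (hC : ¬ ℓ ∣ Nat.card (Subgroup.centralizer (Y : Set X)))
    (ih : ∀ (H : Type) [Group H] [Finite H] (i : H →* X) (Y' : Subgroup H), Function.Injective i →
      Y'.Normal → Y'.map i ≤ Y → mu Y' < mu Y → YH ℓ F Y')
    {G : Type} [Group G] [Finite G] (j : G →* X) (hj : Function.Injective j) (Z : Subgroup G)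
    (hZ : Z.Normal) (hZY : Z.map j = Y) (e : G → F) (he : IsIdem e) (hp : Pos ℓ e Z) (u : G)
    (hu1 : u ≠ 1) (hu : ∃ n : ℕ, u ^ ℓ ^ n = 1) (h0 : Subgroup.zpowers u ⊓ Z = ⊥) :
    YY ℓ ((Subgroup.centralizer ({u} : Set G) ⊓ Z).subgroupOf
      (Subgroup.centralizer ({u} : Set G)))
      (fun t : Subgroup.centralizer ({u} : Set G) => e t) = 0 := by
  set C : Subgroup G := Subgroup.centralizer ({u} : Set G) with hCdef
  have hmap : ((C ⊓ Z).subgroupOf C).map (j.comp C.subtype) =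
      Subgroup.centralizer ({j u} : Set X) ⊓ Y := by
    rw [← Subgroup.map_map, Subgroup.subgroupOf_map_subtype]
    ext t
    rw [Subgroup.mem_map, Subgroup.mem_inf, Subgroup.mem_centralizer_singleton_iff]
    constructor
    · rintro ⟨z, hz, rfl⟩
      have hz1 : z ∈ C := hz.2
      have hz2 : z ∈ Z := hz.1.2
      rw [hCdef, Subgroup.mem_centralizer_singleton_iff] at hz1
      refine ⟨?_, ?_⟩
      · rw [← map_mul, ← map_mul, hz1]
      · rw [← hZY]
        exact ⟨z, hz2, rfl⟩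
    · rintro ⟨h1, h2⟩
      rw [← hZY] at h2
      obtain ⟨z, hz, rfl⟩ := h2
      have hz1 : z ∈ C := by
        rw [hCdef, Subgroup.mem_centralizer_singleton_iff]
        apply hj
        rw [map_mul, map_mul]
        exact h1
      exact ⟨z, ⟨⟨hz1, hz⟩, hz1⟩, rfl⟩
  have hju : ∃ n : ℕ, (j u) ^ ℓ ^ n = 1 := by
    obtain ⟨n, hn⟩ := hu
    exact ⟨n, by rw [← map_pow, hn, map_one]⟩
  have hju1 : j u ≠ 1 := by
    intro h
    exact hu1 (hj (h.trans (map_one j).symm))
  have hnorm : ((C ⊓ Z).subgroupOf C).Normal := by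
    have h1 : (C ⊓ Z).subgroupOf C = Z.subgroupOf C := by
      ext t
      rw [Subgroup.mem_subgroupOf, Subgroup.mem_subgroupOf, Subgroup.mem_inf]
      exact ⟨fun h => h.2, fun h => ⟨t.2, h⟩⟩
    rw [h1]
    exact hZ.subgroupOf _
  have hinj : Function.Injective (j.comp C.subtype) :=
    hj.comp C.subtype_injective
  refine ih C (j.comp C.subtype) ((C ⊓ Z).subgroupOf C) hinj hnorm ?_ ?_ _
    (H67.idem_cent hB hF he hu) ?_
  · rw [hmap]
    exact inf_le_right
  · exact mu_lt Y (j.comp C.subtype) hinj (j u) (not_cent hF.prime hC hju1 hju) _ hmap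
  · have h1 := hps ℓ F hF G (Subgroup.zpowers u) Z (H97.isPGroup_zp hu) hZ h0 e he hp C
      (cent_zp u).le (fun g hg => H97.cent_le_norm hg)
    rw [cent_zp, ← hCdef] at h1
    have h3 : (fun t : C => br (Subgroup.zpowers u) e t) = fun t : C => e t := by
      funext t
      unfold br
      rw [if_pos]
      rw [cent_zp]
      exact t.2
    rw [h3] at h1
    exact h1

end cent

section term

variable {ℓ : ℕ} {F : Type} [Field F] {X : Type} [Group X] [Finite X]

/-- the terms of one chain -/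
theorem term_id (hlqr : LqrStmt) (hB : BrmStmt) (hosi : OsiStmt) (hF : GoodF ℓ F)
    {X₀ : Subgroup X} (hn : X₀.Normal) (hi : X₀.index = ℓ) {e : X → F} (he : IsIdem e)
    {d : Finset (Subgroup X)} (hd : d ∈ chainsOn (psubIn ℓ (⊤ : Subgroup X)) ⊥) :
    ℓ * (Nat.card (stab d) * rk (fun t : stab d => br (top d) e t) (cfs F (stab d))) =
      ℓ * (Nat.card ↥(X₀ ⊓ stab d) *
        rk (fun t : ↥(X₀ ⊓ stab d) => br (top d) e t) (cfs F ↥(X₀ ⊓ stab d))) +
      (ℓ + 1) * (Nat.card (stab d) *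
        rk (fun t : stab d => br (top d) e t) (cfsO F (X₀.subgroupOf (stab d)))) := by
  have hmap : (X₀.subgroupOf (stab d)).map (stab d).subtype = X₀ ⊓ stab d :=
    Subgroup.subgroupOf_map_subtype X₀ (stab d)
  let φ : X₀.subgroupOf (stab d) ≃* ↥(X₀ ⊓ stab d) :=
    ((X₀.subgroupOf (stab d)).equivMapOfInjective (stab d).subtype
      (stab d).subtype_injective).trans (MulEquiv.subgroupCongr hmap)
  have hcard : Nat.card (X₀.subgroupOf (stab d)) = Nat.card ↥(X₀ ⊓ stab d) :=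
    Nat.card_congr φ.toEquiv
  have hrk : rk (fun t : X₀.subgroupOf (stab d) => br (top d) e ((t : stab d) : X))
      (cfs F (X₀.subgroupOf (stab d))) =
      rk (fun t : ↥(X₀ ⊓ stab d) => br (top d) e t) (cfs F ↥(X₀ ⊓ stab d)) :=
    Pool.Agent.Helper26_PP.rk_iso φ (fun t : ↥(X₀ ⊓ stab d) => br (top d) e t)
  by_cases h : stab d ≤ X₀
  · have h1 : X₀.subgroupOf (stab d) = ⊤ := Subgroup.subgroupOf_eq_top.2 h
    have h2 : cfsO F (X₀.subgroupOf (stab d)) = ⊥ := by
      rw [h1, eq_bot_iff]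
      rintro f ⟨-, hf⟩
      rw [Submodule.mem_bot]
      funext x
      exact hf x (Subgroup.mem_top x)
    have h3 : rk (fun t : stab d => br (top d) e t) (cfsO F (X₀.subgroupOf (stab d))) = 0 := by
      unfold rk
      rw [h2, Submodule.map_bot, finrank_bot]
    have hmap' : stab d = X₀ ⊓ stab d := (inf_eq_right.2 h).symm
    let ψ : stab d ≃* ↥(X₀ ⊓ stab d) := MulEquiv.subgroupCongr hmap'
    have hrk' : rk (fun t : stab d => br (top d) e t) (cfs F (stab d)) =
        rk (fun t : ↥(X₀ ⊓ stab d) => br (top d) e t) (cfs F ↥(X₀ ⊓ stab d)) :=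
      Pool.Agent.Helper26_PP.rk_iso ψ (fun t : ↥(X₀ ⊓ stab d) => br (top d) e t)
    have hcard' : Nat.card (stab d) = Nat.card ↥(X₀ ⊓ stab d) := Nat.card_congr ψ.toEquiv
    rw [h3, hrk', hcard', mul_zero, mul_zero, add_zero]
  · have hidx : (X₀.subgroupOf (stab d)).index = ℓ := by
      have h1 : X₀.relIndex (stab d) ∣ X₀.index := Subgroup.relIndex_dvd_index_of_normal X₀ (stab d)
      rw [hi] at h1
      rcases (Nat.dvd_prime hF.prime).1 h1 with h2 | h2
      · exact absurd (Subgroup.relIndex_eq_one.1 h2) h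
      · exact h2
    have h1 := hlqr ℓ F hF (stab d) (X₀.subgroupOf (stab d)) (hn.subgroupOf _) hidx
      (fun t : stab d => br (top d) e t) (H97.isIdem_br hB hF he hd) (by
        intro x hx
        have hx' : (x : X) ∉ X₀ := fun h' => hx (Subgroup.mem_subgroupOf.2 h')
        have := supp_idem hosi hF hn hi he hx'
        change br (top d) e (x : X) = 0
        unfold br
        rw [this, ite_self])
    have h2 : Nat.card (stab d) = ℓ * Nat.card ↥(X₀ ⊓ stab d) := by
      rw [← hcard, ← Subgroup.card_mul_index (X₀.subgroupOf (stab d)), hidx, mul_comm]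
    rw [hrk] at h1
    generalize rk (fun t : stab d => br (top d) e t) (cfs F (stab d)) = A at h1 ⊢
    generalize rk (fun t : ↥(X₀ ⊓ stab d) => br (top d) e t) (cfs F ↥(X₀ ⊓ stab d)) = B at h1 ⊢
    generalize rk (fun t : stab d => br (top d) e t) (cfsO F (X₀.subgroupOf (stab d))) = D
      at h1 ⊢
    calc ℓ * (Nat.card (stab d) * A) = Nat.card (stab d) * (ℓ * A) := by ring
      _ = Nat.card (stab d) * B + (ℓ + 1) * (Nat.card (stab d) * D) := by rw [h1]; ring
      _ = _ := by rw [h2]; ring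

end term

/-- the alternating sums of `X` and of the normal subgroup `X₀` of index `ℓ` agree -/
theorem lq_eq (hrkr : RkrStmt) (hlqr : LqrStmt) (hps : Ps1Stmt) (hB : BrmStmt)
    (hcux : CuxStmt) (hosi : OsiStmt) (ℓ : ℕ) (F : Type) [Field F] (hF : GoodF ℓ F)
    (X : Type) [Group X] [Finite X] (Y X₀ : Subgroup X) (hY : Y.Normal) (hn : X₀.Normal)
    (hYX : Y ≤ X₀) (hi : X₀.index = ℓ)
    (hC : ¬ ℓ ∣ Nat.card (Subgroup.centralizer (Y : Set X)))
    (ih : ∀ (H : Type) [Group H] [Finite H] (i : H →* X) (Y' : Subgroup H), Function.Injective i →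
      Y'.Normal → Y'.map i ≤ Y → mu Y' < mu Y → YH ℓ F Y')
    (e : X → F) (he : IsIdem e) (hp : Pos ℓ e Y) :
    YY ℓ Y e = YY ℓ (Y.subgroupOf X₀) (fun t : X₀ => e t) := by
  have hsupp : ∀ x, x ∉ X₀ → e x = 0 := fun x hx => supp_idem hosi hF hn hi he hx
  have he₀ : IsIdem (fun t : X₀ => e t) := idem_res he hsupp
  have hp₀ : Pos ℓ (fun t : X₀ => e t) (Y.subgroupOf X₀) := pos_res hYX hp
  obtain ⟨h1, h2⟩ := hrkr ℓ F hF X Y hY e he (fun u hu1 hu h0 =>
    hyp_rkr hps hB hF Y hC ih (MonoidHom.id X) Function.injective_id Y hY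
      (Subgroup.map_id Y) e he hp u hu1 hu h0)
  have h3 := h2 X₀ hn hYX ⟨1, by rw [hi, pow_one]⟩
  have h4 := (hrkr ℓ F hF X₀ (Y.subgroupOf X₀) (hY.subgroupOf X₀) (fun t : X₀ => e t) he₀
    (fun u hu1 hu h0 => hyp_rkr hps hB hF Y hC ih X₀.subtype X₀.subtype_injective
      (Y.subgroupOf X₀) (hY.subgroupOf X₀)
      (by rw [Subgroup.subgroupOf_map_subtype, inf_eq_left.2 hYX]) (fun t : X₀ => e t) he₀ hp₀ u
      hu1 hu h0)).1
  have h5 := (hcux ℓ F X X₀ Y hYX e).2
  have hl : (ℓ : ℤ) ≠ 0 := Nat.cast_ne_zero.2 hF.prime.ne_zero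
  rw [← h1, ← h4, ← h5]
  apply mul_left_cancel₀ hl
  have h6 : (ℓ : ℤ) * ∑ d ∈ chainsOn (psubIn ℓ Y) ⊥, (-1) ^ (d.card + 1) *
      ((Nat.card (stab d) : ℤ) * (rk (fun t : stab d => br (top d) e t) (cfs F (stab d)) : ℤ)) =
      (ℓ : ℤ) * ∑ d ∈ chainsOn (psubIn ℓ Y) ⊥, (-1) ^ (d.card + 1) *
      ((Nat.card ↥(X₀ ⊓ stab d) : ℤ) *
      (rk (fun t : ↥(X₀ ⊓ stab d) => br (top d) e t) (cfs F ↥(X₀ ⊓ stab d)) : ℤ)) +
      ((ℓ : ℤ) + 1) * ∑ d ∈ chainsOn (psubIn ℓ Y) ⊥, (-1) ^ (d.card + 1) *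
      ((Nat.card (stab d) : ℤ) *
      (rk (fun t : stab d => br (top d) e t) (cfsO F (X₀.subgroupOf (stab d))) : ℤ)) := by
    rw [Finset.mul_sum, Finset.mul_sum, Finset.mul_sum, ← Finset.sum_add_distrib]
    refine Finset.sum_congr rfl fun d hd => ?_
    have h7 := congrArg (Nat.cast : ℕ → ℤ)
      (term_id hlqr hB hosi hF hn hi he (H67.chainsOn_top hd))
    push_cast at h7
    rw [mul_left_comm, h7]
    ring
  rw [h6, h3, mul_zero, add_zero]

/-- **LQ** -/
theorem lq (hrkr : RkrStmt) (hlqr : LqrStmt) (hps : Ps1Stmt) (hB : BrmStmt)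
    (hcux : CuxStmt) (hosi : OsiStmt) : LqStmt := by
  intro ℓ _ F _ hF X _ _ Y X₀ hY hn hYX hi hC ih e he hp h
  rw [lq_eq hrkr hlqr hps hB hcux hosi ℓ F hF X Y X₀ hY hn hYX hi hC ih e he hp]
  exact h

end Pool.Agent.PP.H9
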