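import Pool.Agent.Helper31_PP.PrdStmts
import Pool.Agent.Helper43_PP.Box
import Pool.Agent.Helper31_PP.Ncg

/-!
# Squad PP, part R2, module PRC: the chains of a direct product
-/

open scoped BigOperators

set_option linter.unusedSectionVars false

noncomputable section

namespace Pool.Agent.PP.H9

open Pool.Agent.PP Pool.Agent.Helper51_AWC Pool.Agent.Helper79_WRA

section spc

variable {A B : Type} [PartialOrder A] [PartialOrder B]

open Classical in
theorem img_fst {s : Finset A} {t : Finset B} {a : A} {b : B} {d : Finset (A × B)}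
    (hd : d ∈ chainsOn (s ×ˢ t) (a, b)) : d.image Prod.fst ∈ chainsOn s a := by
  obtain ⟨h1, h2, h3⟩ := mem_chainsOn.1 hd
  rw [mem_chainsOn]
  refine ⟨?_, Finset.mem_image.2 ⟨_, h2, rfl⟩, ?_⟩
  · intro x hx
    obtain ⟨p, hp, rfl⟩ := Finset.mem_image.1 hx
    exact (Finset.mem_product.1 (h1 hp)).1
  · intro x hx y hy _
    rw [Finset.mem_coe] at hx hy
    obtain ⟨p, hp, rfl⟩ := Finset.mem_image.1 hx
    obtain ⟨q, hq, rfl⟩ := Finset.mem_image.1 hy
    rcases chain_total h3 hp hq with h | h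
    · left; exact h.1
    · right; exact h.1

open Classical in
theorem img_snd {s : Finset A} {t : Finset B} {a : A} {b : B} {d : Finset (A × B)}
    (hd : d ∈ chainsOn (s ×ˢ t) (a, b)) : d.image Prod.snd ∈ chainsOn t b := by
  obtain ⟨h1, h2, h3⟩ := mem_chainsOn.1 hd
  rw [mem_chainsOn]
  refine ⟨?_, Finset.mem_image.2 ⟨_, h2, rfl⟩, ?_⟩
  · intro x hx
    obtain ⟨p, hp, rfl⟩ := Finset.mem_image.1 hx
    exact (Finset.mem_product.1 (h1 hp)).2
  · intro x hx y hy _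
    rw [Finset.mem_coe] at hx hy
    obtain ⟨p, hp, rfl⟩ := Finset.mem_image.1 hx
    obtain ⟨q, hq, rfl⟩ := Finset.mem_image.1 hy
    rcases chain_total h3 hp hq with h | h
    · left; exact h.2
    · right; exact h.2

open Classical in
/-- the complex version of `sum_prod_chains` -/
theorem spc (s : Finset A) (a : A) (t : Finset B) (b : B)
    (has : ∀ x ∈ s, a ≤ x) (hbt : ∀ y ∈ t, b ≤ y) (F : Finset A → Finset B → ℂ) :
    ∑ d ∈ chainsOn (s ×ˢ t) (a, b), (-1) ^ (d.card + 1) *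
        F (d.image Prod.fst) (d.image Prod.snd) =
      ∑ c ∈ chainsOn s a, ∑ c' ∈ chainsOn t b, (-1) ^ (c.card + 1) * (-1) ^ (c'.card + 1) *
        F c c' := by
  have h1 : ∀ d ∈ chainsOn (s ×ˢ t) (a, b), (-1) ^ (d.card + 1) *
      F (d.image Prod.fst) (d.image Prod.snd) =
      ∑ c ∈ chainsOn s a, ∑ c' ∈ chainsOn t b, (((-1) ^ (d.card + 1) *
        (if d.image Prod.fst = c ∧ d.image Prod.snd = c' then 1 else 0) : ℤ) : ℂ) * F c c' := by
    intro d hd
    rw [Finset.sum_eq_single (d.image Prod.fst), Finset.sum_eq_single (d.image Prod.snd)]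
    · rw [if_pos ⟨rfl, rfl⟩]
      push_cast
      ring
    · intro c' _ h
      rw [if_neg (fun h' => h h'.2.symm)]
      simp
    · intro h
      exact absurd (img_snd hd) h
    · intro c _ h
      apply Finset.sum_eq_zero
      intro c' _
      rw [if_neg (fun h' => h h'.1.symm)]
      simp
    · intro h
      exact absurd (img_fst hd) h
  rw [Finset.sum_congr rfl h1, Finset.sum_comm]
  refine Finset.sum_congr rfl fun c hc => ?_
  rw [Finset.sum_comm]
  refine Finset.sum_congr rfl fun c' hc' => ?_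
  rw [← Finset.sum_mul, ← Int.cast_sum, sum_prod_chains s a t b has hbt
    (fun x x' => if x = c ∧ x' = c' then 1 else 0)]
  congr 1
  rw [Finset.sum_eq_single c, Finset.sum_eq_single c']
  · rw [if_pos ⟨rfl, rfl⟩]
    push_cast
    ring
  · intro x _ h
    rw [if_neg (fun h' => h h'.2), mul_zero]
  · intro h
    exact absurd hc' h
  · intro x _ h
    apply Finset.sum_eq_zero
    intro y _
    rw [if_neg (fun h' => h h'.1), mul_zero]
  · intro h
    exact absurd hc h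

end spc

section grp

variable {Y₁ Y₂ : Type} [Group Y₁] [Group Y₂]

theorem tw_prod (α₁ : MulAut Y₁) (α₂ : MulAut Y₂) (n : Y₁ × Y₂) :
    tw (MulEquiv.prodCongr α₁ α₂ : MulAut (Y₁ × Y₂)) n =
      (MulEquiv.prodCongr (tw α₁ n.1) (tw α₂ n.2) : MulAut (Y₁ × Y₂)) := by
  ext x <;> rfl

theorem map_prodCongr (γ₁ : MulAut Y₁) (γ₂ : MulAut Y₂) (P : Subgroup Y₁) (Q : Subgroup Y₂) :
    (P.prod Q).map (MulEquiv.prodCongr γ₁ γ₂ : MulAut (Y₁ × Y₂)).toMonoidHom =
      (P.map γ₁.toMonoidHom).prod (Q.map γ₂.toMonoidHom) := by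
  ext x
  constructor
  · rintro ⟨y, hy, rfl⟩
    have hy' := Subgroup.mem_prod.1 hy
    exact Subgroup.mem_prod.2 ⟨⟨y.1, hy'.1, rfl⟩, ⟨y.2, hy'.2, rfl⟩⟩
  · intro hx
    obtain ⟨⟨y, hy, h1⟩, ⟨z, hz, h2⟩⟩ := Subgroup.mem_prod.1 hx
    exact ⟨(y, z), Subgroup.mem_prod.2 ⟨hy, hz⟩, Prod.ext h1 h2⟩

theorem clos_map (γ₁ : MulAut Y₁) (γ₂ : MulAut Y₂) (D : Subgroup (Y₁ × Y₂)) :
    clos (D.map (MulEquiv.prodCongr γ₁ γ₂ : MulAut (Y₁ × Y₂)).toMonoidHom) =
      (clos D).map (MulEquiv.prodCongr γ₁ γ₂ : MulAut (Y₁ × Y₂)).toMonoidHom := by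
  rw [clos, clos, map_prodCongr]
  congr 1
  · rw [Subgroup.map_map, Subgroup.map_map]
    rfl
  · rw [Subgroup.map_map, Subgroup.map_map]
    rfl

theorem norm_prod (P : Subgroup Y₁) (Q : Subgroup Y₂) :
    Subgroup.normalizer ((P.prod Q : Subgroup (Y₁ × Y₂)) : Set (Y₁ × Y₂)) =
      (Subgroup.normalizer (P : Set Y₁)).prod (Subgroup.normalizer (Q : Set Y₂)) := by
  ext x
  rw [Subgroup.mem_prod, mem_normalizer_iff_conjS, mem_normalizer_iff_conjS,
    mem_normalizer_iff_conjS, conjS_prod, prod_inj]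

theorem prod_le_prod {P P' : Subgroup Y₁} {Q Q' : Subgroup Y₂} :
    P.prod Q ≤ P'.prod Q' ↔ P ≤ P' ∧ Q ≤ Q' := by
  constructor
  · intro h
    have h1 := Subgroup.map_mono (f := MonoidHom.fst Y₁ Y₂) h
    have h2 := Subgroup.map_mono (f := MonoidHom.snd Y₁ Y₂) h
    rw [map_fst_prod, map_fst_prod] at h1
    rw [map_snd_prod, map_snd_prod] at h2
    exact ⟨h1, h2⟩
  · rintro ⟨h1, h2⟩
    exact Subgroup.prod_mono h1 h2

theorem clos_norm {E : Subgroup (Y₁ × Y₂)} (hE : clos E = E) :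
    clos (Subgroup.normalizer (E : Set (Y₁ × Y₂))) = Subgroup.normalizer (E : Set (Y₁ × Y₂)) := by
  rw [← hE]
  unfold clos
  rw [norm_prod]
  rw [map_fst_prod, map_snd_prod]

open Classical in
theorem fixC_map (γ₁ : MulAut Y₁) (γ₂ : MulAut Y₂) (d : Finset (Subgroup Y₁ × Subgroup Y₂)) :
    FixC (MulEquiv.prodCongr γ₁ γ₂ : MulAut (Y₁ × Y₂)) (d.map (prodEmb Y₁ Y₂)) ↔
      FixC γ₁ (d.image Prod.fst) ∧ FixC γ₂ (d.image Prod.snd) := by
  constructor
  · intro h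
    constructor
    · intro P hP
      obtain ⟨p, hp, rfl⟩ := Finset.mem_image.1 hP
      have h1 : (p.1.prod p.2).map
          (MulEquiv.prodCongr γ₁ γ₂ : MulAut (Y₁ × Y₂)).toMonoidHom = p.1.prod p.2 :=
        h (prodEmb Y₁ Y₂ p) (Finset.mem_map_of_mem _ hp)
      rw [map_prodCongr, prod_inj] at h1
      exact h1.1
    · intro P hP
      obtain ⟨p, hp, rfl⟩ := Finset.mem_image.1 hP
      have h1 : (p.1.prod p.2).map
          (MulEquiv.prodCongr γ₁ γ₂ : MulAut (Y₁ × Y₂)).toMonoidHom = p.1.prod p.2 :=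
        h (prodEmb Y₁ Y₂ p) (Finset.mem_map_of_mem _ hp)
      rw [map_prodCongr, prod_inj] at h1
      exact h1.2
  · rintro ⟨h1, h2⟩ D hD
    obtain ⟨p, hp, rfl⟩ := Finset.mem_map.1 hD
    change (p.1.prod p.2).map
      (MulEquiv.prodCongr γ₁ γ₂ : MulAut (Y₁ × Y₂)).toMonoidHom = p.1.prod p.2
    rw [map_prodCongr, prod_inj]
    exact ⟨h1 _ (Finset.mem_image_of_mem _ hp), h2 _ (Finset.mem_image_of_mem _ hp)⟩

theorem top_eq {G : Type} [Group G] {d : Finset (Subgroup G)} {P : Subgroup G} (hP : P ∈ d)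
    (h : ∀ Q ∈ d, Q ≤ P) : top d = P :=
  le_antisymm (sSup_le fun Q hQ => h Q hQ) (le_sSup hP)

open Classical in
theorem normal_map {s : Finset (Subgroup Y₁ × Subgroup Y₂)}
    {b : Subgroup Y₁ × Subgroup Y₂} {d : Finset (Subgroup Y₁ × Subgroup Y₂)}
    (hd : d ∈ chainsOn s b) :
    NormalChain (d.map (prodEmb Y₁ Y₂)) ↔
      NormalChain (d.image Prod.fst) ∧ NormalChain (d.image Prod.snd) := by
  obtain ⟨_, h2, h3⟩ := mem_chainsOn.1 hd
  obtain ⟨p, hp, hmax⟩ := exists_greatest h3 ⟨b, h2⟩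
  have t1 : top (d.image Prod.fst) = p.1 := by
    apply top_eq (Finset.mem_image_of_mem _ hp)
    intro Q hQ
    obtain ⟨q, hq, rfl⟩ := Finset.mem_image.1 hQ
    exact (hmax q hq).1
  have t2 : top (d.image Prod.snd) = p.2 := by
    apply top_eq (Finset.mem_image_of_mem _ hp)
    intro Q hQ
    obtain ⟨q, hq, rfl⟩ := Finset.mem_image.1 hQ
    exact (hmax q hq).2
  have t3 : top (d.map (prodEmb Y₁ Y₂)) = p.1.prod p.2 := by
    apply top_eq (Finset.mem_map.2 ⟨p, hp, rfl⟩)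
    intro Q hQ
    obtain ⟨q, hq, rfl⟩ := Finset.mem_map.1 hQ
    exact Subgroup.prod_mono (hmax q hq).1 (hmax q hq).2
  unfold NormalChain
  rw [t1, t2, t3]
  constructor
  · intro h
    constructor
    · intro P hP
      obtain ⟨q, hq, rfl⟩ := Finset.mem_image.1 hP
      have h1 : p.1.prod p.2 ≤
          Subgroup.normalizer ((q.1.prod q.2 : Subgroup (Y₁ × Y₂)) : Set (Y₁ × Y₂)) :=
        h (prodEmb Y₁ Y₂ q) (Finset.mem_map_of_mem _ hq)
      rw [norm_prod, prod_le_prod] at h1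
      exact h1.1
    · intro P hP
      obtain ⟨q, hq, rfl⟩ := Finset.mem_image.1 hP
      have h1 : p.1.prod p.2 ≤
          Subgroup.normalizer ((q.1.prod q.2 : Subgroup (Y₁ × Y₂)) : Set (Y₁ × Y₂)) :=
        h (prodEmb Y₁ Y₂ q) (Finset.mem_map_of_mem _ hq)
      rw [norm_prod, prod_le_prod] at h1
      exact h1.2
  · rintro ⟨h1, h2⟩ D hD
    obtain ⟨q, hq, rfl⟩ := Finset.mem_map.1 hD
    change p.1.prod p.2 ≤
      Subgroup.normalizer ((q.1.prod q.2 : Subgroup (Y₁ × Y₂)) : Set (Y₁ × Y₂))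
    rw [norm_prod, prod_le_prod]
    exact ⟨h1 _ (Finset.mem_image_of_mem _ hq), h2 _ (Finset.mem_image_of_mem _ hq)⟩

end grp

section chains

variable {Y₁ Y₂ : Type} [Group Y₁] [Group Y₂] [Finite Y₁] [Finite Y₂]

open Classical in
/-- the closed chains of `Y₁ × Y₂` are the chains of pairs -/
theorem sum_closed (ℓ : ℕ) (g : Finset (Subgroup (Y₁ × Y₂)) → ℂ) :
    ∑ d ∈ (chainsOn (psubIn ℓ (⊤ : Subgroup (Y₁ × Y₂))) ⊥).filter
        (fun d => ∀ D ∈ d, clos D = D), g d =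
      ∑ d ∈ chainsOn (psubIn ℓ (⊤ : Subgroup Y₁) ×ˢ psubIn ℓ (⊤ : Subgroup Y₂)) (⊥, ⊥),
        g (d.map (prodEmb Y₁ Y₂)) := by
  have hbot : (⊥ : Subgroup (Y₁ × Y₂)) = (⊥ : Subgroup Y₁).prod (⊥ : Subgroup Y₂) :=
    (Subgroup.bot_prod_bot).symm
  symm
  apply Finset.sum_bij (fun d _ => d.map (prodEmb Y₁ Y₂))
  · intro d hd
    obtain ⟨l1, l2, l3⟩ := mem_chainsOn.1 hd
    rw [Finset.mem_filter, mem_chainsOn]
    refine ⟨⟨?_, ?_, ?_⟩, ?_⟩
    · intro D hD
      obtain ⟨p, hp, rfl⟩ := Finset.mem_map.1 hD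
      have h2 := Finset.mem_product.1 (l1 hp)
      rw [mem_psubIn, mem_psubIn] at h2
      rw [mem_psubIn]
      exact ⟨le_top, isPGroup_prod h2.1.2 h2.2.2⟩
    · rw [hbot]
      exact Finset.mem_map.2 ⟨_, l2, rfl⟩
    · intro D hD E hE hne
      rw [Finset.mem_coe] at hD hE
      obtain ⟨p, hp, rfl⟩ := Finset.mem_map.1 hD
      obtain ⟨q, hq, rfl⟩ := Finset.mem_map.1 hE
      rcases chain_total l3 hp hq with h | h
      · left; exact Subgroup.prod_mono h.1 h.2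
      · right; exact Subgroup.prod_mono h.1 h.2
    · intro D hD
      obtain ⟨p, hp, rfl⟩ := Finset.mem_map.1 hD
      exact clos_prod _ _
  · intro d _ e _ h
    exact Finset.map_injective _ h
  · intro D hD
    rw [Finset.mem_filter, mem_chainsOn] at hD
    obtain ⟨⟨l1, l2, l3⟩, l4⟩ := hD
    have hform : ∀ E ∈ D, E = (E.map (MonoidHom.fst Y₁ Y₂)).prod
        (E.map (MonoidHom.snd Y₁ Y₂)) := fun E hE => (l4 E hE).symm
    refine ⟨D.image (fun E => (E.map (MonoidHom.fst Y₁ Y₂), E.map (MonoidHom.snd Y₁ Y₂))),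
      ?_, ?_⟩
    · rw [mem_chainsOn]
      refine ⟨?_, ?_, ?_⟩
      · intro p hp
        obtain ⟨E, hE, rfl⟩ := Finset.mem_image.1 hp
        rw [Finset.mem_product, mem_psubIn, mem_psubIn]
        exact ⟨⟨le_top, (mem_psubIn.1 (l1 hE)).2.map _⟩, ⟨le_top, (mem_psubIn.1 (l1 hE)).2.map _⟩⟩
      · refine Finset.mem_image.2 ⟨_, l2, ?_⟩
        rw [Subgroup.map_bot, Subgroup.map_bot]
      · intro p hp q hq hne
        rw [Finset.mem_coe] at hp hq
        obtain ⟨E, hE, rfl⟩ := Finset.mem_image.1 hp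
        obtain ⟨F, hF, rfl⟩ := Finset.mem_image.1 hq
        rcases chain_total l3 hE hF with h | h
        · left; exact ⟨Subgroup.map_mono h, Subgroup.map_mono h⟩
        · right; exact ⟨Subgroup.map_mono h, Subgroup.map_mono h⟩
    · ext E
      rw [Finset.mem_map]
      constructor
      · rintro ⟨p, hp, rfl⟩
        obtain ⟨F, hF, rfl⟩ := Finset.mem_image.1 hp
        change (F.map (MonoidHom.fst Y₁ Y₂)).prod (F.map (MonoidHom.snd Y₁ Y₂)) ∈ D
        rw [← hform F hF]; exact hF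
      · intro hE
        exact ⟨_, Finset.mem_image_of_mem _ hE, (hform E hE).symm⟩
  · intro d _
    rfl

theorem fsum_prod (A : Y₁ → Y₁ → ℂ) (B : Y₂ → Y₂ → ℂ) :
    ∑ᶠ (n : Y₁ × Y₂) (m : Y₁ × Y₂), A n.1 m.1 * B n.2 m.2 =
      (∑ᶠ (n : Y₁) (m : Y₁), A n m) * (∑ᶠ (n : Y₂) (m : Y₂), B n m) := by
  have := Fintype.ofFinite Y₁
  have := Fintype.ofFinite Y₂
  simp only [finsum_eq_sum_of_fintype]
  rw [Fintype.sum_prod_type, Finset.sum_mul_sum]
  refine Finset.sum_congr rfl fun n₁ _ => Finset.sum_congr rfl fun n₂ _ => ?_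
  rw [Fintype.sum_prod_type, Finset.sum_mul_sum]

end chains

open Classical in
/-- PRC from BOX. -/
theorem prc (hbox : BoxStmt) : PrcStmt := by
  intro ℓ _ F _ hF Y₁ Y₂ _ _ _ _ f w α₁ β₁ α₂ β₂ τ T₁ T₂ hT
  have hconj : ∀ n : Y₁ × Y₂, (MulAut.conj n : MulAut (Y₁ × Y₂)) =
      (MulEquiv.prodCongr (MulAut.conj n.1) (MulAut.conj n.2) : MulAut (Y₁ × Y₂)) := by
    intro n
    ext x <;> rfl
  rw [hbox ℓ F hF (Y₁ × Y₂) f (MulEquiv.prodCongr α₁ α₂) (MulEquiv.prodCongr β₁ β₂) w τ clos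
    (fun D hD => isPGroup_prod (hD.map _) (hD.map _)) (fun D => le_clos D)
    (fun D E h => clos_mono h) (fun D => clos_clos D)
    (by rw [← Subgroup.bot_prod_bot]; exact clos_prod _ _)
    (fun n D => by rw [hconj]; exact clos_map _ _ _)
    (fun D => clos_map _ _ _) (fun D => clos_map _ _ _)
    (fun s hs D hD _ => le_antisymm (le_inf ((clos_mono inf_le_left).trans hD.le)
      (le_iInf₂ fun E hE => (clos_mono (inf_le_right.trans (iInf₂_le E hE))).trans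
        (clos_norm (hs E hE)).le)) (le_clos _))]
  rw [← fsum_prod]
  refine finsum_congr fun n => finsum_congr fun m => ?_
  have e0 : ∑ d ∈ (chainsOn (psubIn ℓ (⊤ : Subgroup (Y₁ × Y₂))) ⊥).filter
      (fun d => NormalChain d ∧ (FixC (tw (MulEquiv.prodCongr α₁ α₂) n) d ∧
        FixC (tw (MulEquiv.prodCongr β₁ β₂) m) d) ∧ ∀ D ∈ d, clos D = D),
      (-1) ^ (d.card + 1) * tcon τ f (tw (MulEquiv.prodCongr α₁ α₂) n)
        (tw (MulEquiv.prodCongr β₁ β₂) m)
        (fun y => w (cc (MulEquiv.prodCongr α₁ α₂) (MulEquiv.prodCongr β₁ β₂) n m * y)) d =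
      ∑ d ∈ (chainsOn (psubIn ℓ (⊤ : Subgroup (Y₁ × Y₂))) ⊥).filter
        (fun d => ∀ D ∈ d, clos D = D),
        if NormalChain d ∧ FixC (tw (MulEquiv.prodCongr α₁ α₂) n) d ∧
          FixC (tw (MulEquiv.prodCongr β₁ β₂) m) d then
        (-1) ^ (d.card + 1) * tcon τ f (tw (MulEquiv.prodCongr α₁ α₂) n)
          (tw (MulEquiv.prodCongr β₁ β₂) m)
          (fun y => w (cc (MulEquiv.prodCongr α₁ α₂) (MulEquiv.prodCongr β₁ β₂) n m * y)) d
        else 0 := by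
    rw [← Finset.sum_filter, Finset.filter_filter]
    refine Finset.sum_congr ?_ fun _ _ => rfl
    ext d
    rw [Finset.mem_filter, Finset.mem_filter]
    tauto
  rw [e0, sum_closed]
  have e1 : ∀ d ∈ chainsOn (psubIn ℓ (⊤ : Subgroup Y₁) ×ˢ psubIn ℓ (⊤ : Subgroup Y₂)) (⊥, ⊥),
      (if NormalChain (d.map (prodEmb Y₁ Y₂)) ∧
          FixC (tw (MulEquiv.prodCongr α₁ α₂) n) (d.map (prodEmb Y₁ Y₂)) ∧
          FixC (tw (MulEquiv.prodCongr β₁ β₂) m) (d.map (prodEmb Y₁ Y₂)) then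
        (-1) ^ ((d.map (prodEmb Y₁ Y₂)).card + 1) * tcon τ f (tw (MulEquiv.prodCongr α₁ α₂) n)
          (tw (MulEquiv.prodCongr β₁ β₂) m)
          (fun y => w (cc (MulEquiv.prodCongr α₁ α₂) (MulEquiv.prodCongr β₁ β₂) n m * y))
          (d.map (prodEmb Y₁ Y₂))
        else 0) = (-1) ^ (d.card + 1) *
        ((if NormalChain (d.image Prod.fst) ∧ FixC (tw α₁ n.1) (d.image Prod.fst) ∧
            FixC (tw β₁ m.1) (d.image Prod.fst) then T₁ n.1 m.1 (d.image Prod.fst) else 0) *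
          (if NormalChain (d.image Prod.snd) ∧ FixC (tw α₂ n.2) (d.image Prod.snd) ∧
            FixC (tw β₂ m.2) (d.image Prod.snd) then T₂ n.2 m.2 (d.image Prod.snd) else 0)) := by
    intro d hd
    have hn := normal_map hd
    have hf1 := fixC_map (tw α₁ n.1) (tw α₂ n.2) d
    have hf2 := fixC_map (tw β₁ m.1) (tw β₂ m.2) d
    rw [← tw_prod] at hf1 hf2
    by_cases h : NormalChain (d.map (prodEmb Y₁ Y₂)) ∧
          FixC (tw (MulEquiv.prodCongr α₁ α₂) n) (d.map (prodEmb Y₁ Y₂)) ∧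
          FixC (tw (MulEquiv.prodCongr β₁ β₂) m) (d.map (prodEmb Y₁ Y₂))
    · have a1 := hn.1 h.1
      have a2 := hf1.1 h.2.1
      have a3 := hf2.1 h.2.2
      have hmem : d.map (prodEmb Y₁ Y₂) ∈ chainsOn (psubIn ℓ (⊤ : Subgroup (Y₁ × Y₂))) ⊥ := by
        obtain ⟨l1, l2, l3⟩ := mem_chainsOn.1 hd
        rw [mem_chainsOn]
        refine ⟨?_, ?_, ?_⟩
        · intro D hD
          obtain ⟨p, hp, rfl⟩ := Finset.mem_map.1 hD
          have h2 := Finset.mem_product.1 (l1 hp)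
          rw [mem_psubIn, mem_psubIn] at h2
          rw [mem_psubIn]
          exact ⟨le_top, isPGroup_prod h2.1.2 h2.2.2⟩
        · rw [← Subgroup.bot_prod_bot]
          exact Finset.mem_map.2 ⟨_, l2, rfl⟩
        · intro D hD E hE hne
          rw [Finset.mem_coe] at hD hE
          obtain ⟨p, hp, rfl⟩ := Finset.mem_map.1 hD
          obtain ⟨q, hq, rfl⟩ := Finset.mem_map.1 hE
          rcases chain_total l3 hp hq with h | h
          · left; exact Subgroup.prod_mono h.1 h.2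
          · right; exact Subgroup.prod_mono h.1 h.2
      rw [if_pos h, if_pos ⟨a1.1, a2.1, a3.1⟩, if_pos ⟨a1.2, a2.2, a3.2⟩, Finset.card_map]
      rw [hT n m (d.image Prod.fst) (img_fst hd) a1.1 a2.1 a3.1 (d.image Prod.snd) (img_snd hd)
        a1.2 a2.2 a3.2 (d.map (prodEmb Y₁ Y₂)) hmem h.1 h.2.1 h.2.2 (stab_prod d)]
    · rw [if_neg h]
      by_cases h1 : NormalChain (d.image Prod.fst) ∧ FixC (tw α₁ n.1) (d.image Prod.fst) ∧
            FixC (tw β₁ m.1) (d.image Prod.fst)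
      · by_cases h2 : NormalChain (d.image Prod.snd) ∧ FixC (tw α₂ n.2) (d.image Prod.snd) ∧
            FixC (tw β₂ m.2) (d.image Prod.snd)
        · exact absurd ⟨hn.2 ⟨h1.1, h2.1⟩, hf1.2 ⟨h1.2.1, h2.2.1⟩, hf2.2 ⟨h1.2.2, h2.2.2⟩⟩ h
        · rw [if_neg h2, mul_zero, mul_zero]
      · rw [if_neg h1, zero_mul, mul_zero]
  rw [Finset.sum_congr rfl e1, spc _ _ _ _ (fun _ _ => bot_le) (fun _ _ => bot_le)
    (fun c c' => (if NormalChain c ∧ FixC (tw α₁ n.1) c ∧ FixC (tw β₁ m.1) c then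
        T₁ n.1 m.1 c else 0) *
      (if NormalChain c' ∧ FixC (tw α₂ n.2) c' ∧ FixC (tw β₂ m.2) c' then
        T₂ n.2 m.2 c' else 0)), Finset.sum_filter, Finset.sum_filter, Finset.sum_mul_sum]
  refine Finset.sum_congr rfl fun c _ => Finset.sum_congr rfl fun c' _ => ?_
  by_cases h1 : NormalChain c ∧ FixC (tw α₁ n.1) c ∧ FixC (tw β₁ m.1) c
  · by_cases h2 : NormalChain c' ∧ FixC (tw α₂ n.2) c' ∧ FixC (tw β₂ m.2) c'
    · rw [if_pos h1, if_pos h2, if_pos h1, if_pos h2]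
      ring
    · rw [if_neg h2, if_neg h2, mul_zero, mul_zero, mul_zero]
  · rw [if_neg h1, if_neg h1, zero_mul, mul_zero, zero_mul]

end Pool.Agent.PP.H9
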